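import Pool.Agent.helper78.NLS.Spec

/-!
# HOL: the limit functions are holomorphic off `K`
-/

set_option autoImplicit false

open Complex Metric Set Filter Topology MeasureTheory MPS
open Pool.Agent.helper98.ILF Pool.Agent.helper16.Multibrot

noncomputable section

namespace NLS

theorem HOL : HOL_stmt := by
  intro K H hK hKb hH hsupp
  have hKfin : volume K < ⊤ := (measure_mono hKb).trans_lt measure_ball_lt_top
  have hHint : Integrable H := by
    have h1 : MemLp H 2 (volume.restrict K) := hH.restrict K
    have : IsFiniteMeasure (volume.restrict K) := ⟨by rw [Measure.restrict_apply_univ]; exact hKfin⟩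
    have h2 : IntegrableOn H K := h1.integrable one_le_two
    refine (integrableOn_iff_integrable_of_support_subset ?_).1 h2
    intro w hw
    exact hsupp w hw
  intro z hz
  -- distance
  obtain ⟨d, hd0, hd⟩ : ∃ d : ℝ, 0 < d ∧ ∀ w ∈ K, d ≤ dist z w := by
    have h1 : Kᶜ ∈ 𝓝 z := hK.isOpen_compl.mem_nhds hz
    obtain ⟨d, hd0, hd⟩ := Metric.mem_nhds_iff.1 h1
    refine ⟨d, hd0, fun w hw => ?_⟩
    by_contra h2
    exact hd (mem_ball'.2 (not_le.1 h2)) hw
  have hne : ∀ x ∈ ball z (d / 2), ∀ w ∈ K, d / 2 ≤ ‖x - w‖ := by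
    intro x hx w hw
    have h1 := hd w hw
    have h2 : dist z x < d / 2 := mem_ball'.1 hx
    have h3 : dist z w ≤ dist z x + dist x w := dist_triangle _ _ _
    rw [← dist_eq_norm]
    linarith
  have key := hasDerivAt_integral_of_dominated_loc_of_deriv_le (μ := (volume : Measure ℂ))
    (F := fun (x : ℂ) (w : ℂ) => H w / (x - w)) (F' := fun (x : ℂ) (w : ℂ) => -(H w / (x - w) ^ 2))
    (x₀ := z) (s := ball z (d / 2)) (bound := fun w => ‖H w‖ * ((d / 2) ^ 2)⁻¹)
    (ball_mem_nhds z (half_pos hd0)) ?_ ?_ ?_ ?_ ?_ ?_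
  · exact (key.2.const_mul (1 / Real.pi : ℂ)).differentiableAt.differentiableWithinAt
  · refine Filter.Eventually.of_forall fun x => ?_
    have h1 : (fun w => H w / (x - w)) = fun w => H w * (x - w)⁻¹ := by
      funext w; rw [div_eq_mul_inv]
    rw [h1]
    have h2 : Measurable fun w : ℂ => (x - w)⁻¹ := by fun_prop
    exact hHint.aestronglyMeasurable.mul h2.aestronglyMeasurable
  · have h1 : (fun w => H w / (z - w)) = fun w => H w * (z - w)⁻¹ := by
      funext w; rw [div_eq_mul_inv]
    rw [h1]
    have h2 : Measurable fun w : ℂ => (z - w)⁻¹ := by fun_prop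
    refine Integrable.mono' (hHint.norm.mul_const ((d / 2)⁻¹))
      (hHint.aestronglyMeasurable.mul h2.aestronglyMeasurable) (Filter.Eventually.of_forall fun w => ?_)
    by_cases hw : H w = 0
    · rw [hw, zero_mul, norm_zero, zero_mul]
    · rw [norm_mul, norm_inv]
      refine mul_le_mul_of_nonneg_left ?_ (norm_nonneg _)
      exact inv_anti₀ (half_pos hd0) (hne z (mem_ball_self (half_pos hd0)) w (hsupp w hw))
  · have h1 : (fun w => -(H w / (z - w) ^ 2)) = fun w => H w * (-((z - w) ^ 2)⁻¹) := by
      funext w; rw [div_eq_mul_inv, mul_neg]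
    rw [h1]
    have h2 : Measurable fun w : ℂ => -((z - w) ^ 2)⁻¹ := by fun_prop
    exact hHint.aestronglyMeasurable.mul h2.aestronglyMeasurable
  · refine Filter.Eventually.of_forall fun w x hx => ?_
    by_cases hw : H w = 0
    · rw [hw, zero_div, neg_zero, norm_zero, zero_mul]
    · rw [norm_neg, norm_div, norm_pow, div_eq_mul_inv]
      refine mul_le_mul_of_nonneg_left ?_ (norm_nonneg _)
      refine inv_anti₀ (by positivity) ?_
      exact pow_le_pow_left₀ (half_pos hd0).le (hne x hx w (hsupp w hw)) 2
  · exact hHint.norm.mul_const _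
  · refine Filter.Eventually.of_forall fun w x hx => ?_
    by_cases hw : H w = 0
    · have h3 : (fun x : ℂ => H w / (x - w)) = fun _ => 0 := by
        funext y; rw [hw, zero_div]
      have h4 : -(H w / (x - w) ^ 2) = 0 := by rw [hw, zero_div, neg_zero]
      show HasDerivAt (fun x : ℂ => H w / (x - w)) (-(H w / (x - w) ^ 2)) x
      rw [h3, h4]
      exact hasDerivAt_const x 0
    · have h5 : x - w ≠ 0 := by
        intro h6
        have h7 := hne x hx w (hsupp w hw)
        rw [h6, norm_zero] at h7
        linarith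
      have h6 : HasDerivAt (fun x : ℂ => x - w) 1 x := (hasDerivAt_id x).sub_const w
      have h7 := (h6.inv h5).const_mul (H w)
      have h8 : (fun x : ℂ => H w / (x - w)) = fun x => H w * (x - w)⁻¹ := by
        funext y; rw [div_eq_mul_inv]
      show HasDerivAt (fun x : ℂ => H w / (x - w)) (-(H w / (x - w) ^ 2)) x
      rw [h8]
      refine h7.congr_deriv ?_
      rw [neg_div, mul_neg, mul_one_div]

end NLS
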